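import Mathlib
import Pool.Agent.H86.CMLib.Y114.RM.Stm3
import Pool.Agent.H86.CMLib.Y41.RM.Log

/-!
# Regular monodromy: the Lie algebra attached to a representation (LIE)
-/

set_option autoImplicit false

namespace Pool.Agent.Y41.RM

open Module Polynomial Pool.Agent.Y114.MU Pool.Agent.Y114.RM Pool.Agent.H204R3.SP

section lin

variable {k : Type} [Field k] {V : Type} [AddCommGroup V] [Module k V]

theorem dualMap_mul (A B : End k V) :
    (A.dualMap : End k (Dual k V)) * B.dualMap = (B * A).dualMap := rfl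

theorem dualMap_one : ((1 : End k V).dualMap : End k (Dual k V)) = 1 := rfl

theorem dualMap_sub (A B : End k V) : (A - B).dualMap = A.dualMap - B.dualMap :=
  LinearMap.ext fun f => LinearMap.ext fun _ => f.map_sub _ _

theorem dualMap_add (A B : End k V) : (A + B).dualMap = A.dualMap + B.dualMap :=
  LinearMap.ext fun f => LinearMap.ext fun _ => f.map_add _ _

theorem dualMap_neg (A : End k V) : (-A).dualMap = -A.dualMap :=
  LinearMap.ext fun f => LinearMap.ext fun _ => f.map_neg _

theorem dualMap_zero : (0 : End k V).dualMap = 0 :=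
  LinearMap.ext fun f => LinearMap.ext fun _ => f.map_zero

theorem dualMap_smul (c : k) (A : End k V) : (c • A).dualMap = c • A.dualMap :=
  LinearMap.ext fun f => LinearMap.ext fun _ => f.map_smul c _

theorem dualMap_pow (A : End k V) (n : ℕ) :
    ((A ^ n).dualMap : End k (Dual k V)) = (A.dualMap : End k (Dual k V)) ^ n := by
  induction n with
  | zero => rw [pow_zero, pow_zero, dualMap_one]
  | succ n ih => rw [pow_succ, pow_succ', ← dualMap_mul, ih]

theorem dualMap_sum {ι : Type} (s : Finset ι) (A : ι → End k V) :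
    (∑ i ∈ s, A i).dualMap = ∑ i ∈ s, (A i).dualMap := by
  classical
  induction s using Finset.induction_on with
  | empty => rw [Finset.sum_empty, Finset.sum_empty, dualMap_zero]
  | insert a s ha ih => rw [Finset.sum_insert ha, Finset.sum_insert ha, dualMap_add, ih]

theorem prodMap_pow' {W : Type} [AddCommGroup W] [Module k W] (A : End k V) (B : End k W)
    (n : ℕ) : (A.prodMap B : End k (V × W)) ^ n = (A ^ n).prodMap (B ^ n) := by
  induction n with
  | zero => rw [pow_zero, pow_zero, pow_zero]; exact LinearMap.prodMap_one.symm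
  | succ n ih =>
    rw [pow_succ, pow_succ, pow_succ, ih]
    exact LinearMap.prodMap_mul _ _ _ _

theorem lie_zero : lie (0 : End k V) = 0 := by
  refine LinearMap.ext fun z => Prod.ext ?_ ?_
  · rfl
  · refine LinearMap.ext fun x => ?_
    change -(z.2 0) = 0
    rw [map_zero, neg_zero]

theorem lie_add (X Y : End k V) : lie (X + Y) = lie X + lie Y := by
  refine LinearMap.ext fun z => Prod.ext ?_ ?_
  · rfl
  · refine LinearMap.ext fun x => ?_
    change -(z.2 (X x + Y x)) = -(z.2 (X x)) + -(z.2 (Y x))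
    rw [map_add, neg_add]

theorem lie_smul (c : k) (X : End k V) : lie (c • X) = c • lie X := by
  refine LinearMap.ext fun z => Prod.ext ?_ ?_
  · rfl
  · refine LinearMap.ext fun x => ?_
    change -(z.2 (c • X x)) = c * -(z.2 (X x))
    rw [map_smul, smul_eq_mul, mul_neg]

theorem lie_bracket (X Y : End k V) : lie (X * Y - Y * X) = lie X * lie Y - lie Y * lie X := by
  refine LinearMap.ext fun z => Prod.ext ?_ ?_
  · rfl
  · refine LinearMap.ext fun x => ?_
    change (-(z.2 ((X * Y - Y * X) x))) =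
      -((-(z.2 (Y (X x))))) - (-(-(z.2 (X (Y x)))))
    rw [LinearMap.sub_apply, map_sub, Module.End.mul_apply, Module.End.mul_apply]
    ring

/-- the representation on the sum of `V` and its dual -/
noncomputable def rep2 {Γ : Type} [Group Γ] (ρ : Representation k Γ V) :
    Representation k Γ (V × Dual k V) where
  toFun γ := grp (ρ γ) (ρ γ⁻¹)
  map_one' := by
    unfold grp
    rw [inv_one, map_one, dualMap_one]
    exact LinearMap.prodMap_one
  map_mul' a b := by
    unfold grp
    rw [mul_inv_rev, map_mul, map_mul, ← dualMap_mul]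
    exact (LinearMap.prodMap_mul _ _ _ _).symm

theorem rep2_apply {Γ : Type} [Group Γ] (ρ : Representation k Γ V) (γ : Γ) :
    rep2 ρ γ = grp (ρ γ) (ρ γ⁻¹) := rfl

theorem lie_conj {Γ : Type} [Group Γ] (ρ : Representation k Γ V) (γ : Γ) (X : End k V) :
    lie (AdE (ρ γ) (ρ γ⁻¹) X) = rep2 ρ γ * lie X * rep2 ρ γ⁻¹ := by
  rw [rep2_apply, rep2_apply, inv_inv, AdE_apply]
  refine LinearMap.ext fun z => Prod.ext ?_ ?_
  · rfl
  · refine LinearMap.ext fun x => ?_
    rfl

end lin

/-- LIE -/
theorem lieL (h3 : S_LOG3) (h4 : S_LOG4) : S_LIE := by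
  intro k _ _ V _ _ _ Γ _ ρ
  let L : Submodule k (End k V) :=
    { carrier := LT ρ
      zero_mem' := by
        refine ⟨fun W _ x _ => W.zero_mem, fun m φ _ v => ?_⟩
        refine Finset.sum_eq_zero fun l _ => ?_
        rw [lie_zero, LinearMap.zero_apply]
        exact φ.map_coord_zero l (Function.update_self _ _ _)
      add_mem' := by
        rintro X Y ⟨hX, hX'⟩ ⟨hY, hY'⟩
        refine ⟨fun W hW x hx => W.add_mem (hX W hW x hx) (hY W hW x hx), fun m φ hφ v => ?_⟩
        have e1 := hX' m φ hφ v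
        have e2 := hY' m φ hφ v
        have e3 := congrArg₂ (fun x y : k => x + y) e1 e2
        simp only [add_zero] at e3
        rw [← e3, ← Finset.sum_add_distrib]
        refine Finset.sum_congr rfl fun l _ => ?_
        rw [lie_add, LinearMap.add_apply, MultilinearMap.map_update_add]
      smul_mem' := by
        rintro c X ⟨hX, hX'⟩
        refine ⟨fun W hW x hx => W.smul_mem c (hX W hW x hx), fun m φ hφ v => ?_⟩
        have e1 := hX' m φ hφ v
        rw [← mul_zero c, ← e1, Finset.mul_sum]
        refine Finset.sum_congr rfl fun l _ => ?_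
        rw [lie_smul, LinearMap.smul_apply, MultilinearMap.map_update_smul, smul_eq_mul] }
  refine ⟨L, fun X => Iff.rfl, ?_, ?_, ?_⟩
  · intro X hX Y hY
    refine ⟨fun W hW x hx => W.sub_mem (hX.1 W hW _ (hY.1 W hW x hx))
      (hY.1 W hW _ (hX.1 W hW x hx)), fun m φ hφ => ?_⟩
    have e1 : Kills (lie X) φ := hX.2 m φ hφ
    have e2 : Kills (lie Y) φ := hY.2 m φ hφ
    have e3 := kills_bracket e1 e2
    rw [← lie_bracket] at e3
    exact e3
  · intro γ X hX
    refine ⟨?_, ?_⟩
    · rintro W ⟨Δ, hΔ, hW⟩ x hx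
      have hc := hX.1 (W.comap (ρ γ)) ⟨Δ.comap (MulAut.conj γ).toMonoidHom, ⟨by
        rw [Subgroup.index_comap_of_surjective _ (MulAut.conj γ).surjective]
        exact hΔ.index_ne_zero⟩, fun t ht y hy => by
          have e1 : γ * t * γ⁻¹ ∈ Δ := by
            rw [Subgroup.mem_comap] at ht
            exact ht
          have e2 := hW _ e1 _ hy
          rw [map_mul, map_mul, Module.End.mul_apply, Module.End.mul_apply, rho_inv] at e2
          exact e2⟩ (ρ γ⁻¹ x) (by
            change ρ γ (ρ γ⁻¹ x) ∈ W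
            rw [rho_inv']
            exact hx)
      exact hc
    · rintro m φ ⟨Δ, hΔ, hφ⟩ v
      let φ' : Tensor k V m := φ.compLinearMap (fun _ => rep2 ρ γ)
      have hφ' : TateTensor ρ φ' := by
        refine ⟨Δ.comap (MulAut.conj γ).toMonoidHom, ⟨by
          rw [Subgroup.index_comap_of_surjective _ (MulAut.conj γ).surjective]
          exact hΔ.index_ne_zero⟩, fun t ht v => ?_⟩
        have e1 : γ * t * γ⁻¹ ∈ Δ := by
          rw [Subgroup.mem_comap] at ht
          exact ht
        have e2 := hφ _ e1 (fun l => rep2 ρ γ (v l))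
        change φ (fun l => rep2 ρ γ (rep2 ρ t (v l))) = φ (fun l => rep2 ρ γ (v l))
        have e3 : ∀ l, rep2 ρ (γ * t * γ⁻¹) (rep2 ρ γ (v l)) = rep2 ρ γ (rep2 ρ t (v l)) := by
          intro l
          rw [map_mul, map_mul, Module.End.mul_apply, Module.End.mul_apply, rho_inv]
        have e4 : (fun l => grp (ρ (γ * t * γ⁻¹)) (ρ (γ * t * γ⁻¹)⁻¹) (rep2 ρ γ (v l))) =
            fun l => rep2 ρ γ (rep2 ρ t (v l)) := funext e3
        rw [e4] at e2
        exact e2
      have e1 := hX.2 m φ' hφ' (fun l => rep2 ρ γ⁻¹ (v l))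
      rw [← e1]
      refine Finset.sum_congr rfl fun l _ => ?_
      change _ = φ (fun i => rep2 ρ γ
        (Function.update (fun l => rep2 ρ γ⁻¹ (v l)) l (lie X (rep2 ρ γ⁻¹ (v l))) i))
      congr 1
      funext i
      by_cases h : i = l
      · subst h
        rw [Function.update_self, Function.update_self, lie_conj]
        rfl
      · rw [Function.update_of_ne h, Function.update_of_ne h, rho_inv']
  · intro τ d hd hν
    have hpow : ∀ n : ℕ, (1 + (ρ τ - 1)) ^ n = ρ (τ ^ n) := by
      intro n
      rw [add_sub_cancel, map_pow]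
    refine ⟨?_, ?_⟩
    · rintro W ⟨Δ, hΔ, hW⟩
      obtain ⟨M, hM0, -, hM⟩ := Subgroup.exists_pow_mem_of_index_ne_zero hΔ.index_ne_zero τ
      refine h3 k V (ρ τ - 1) d M hd hν hM0 W ?_
      intro x hx
      rw [hpow]
      exact hW _ hM x hx
    · rintro m φ ⟨Δ, hΔ, hφ⟩
      obtain ⟨M, hM0, -, hM⟩ := Subgroup.exists_pow_mem_of_index_ne_zero hΔ.index_ne_zero τ
      -- the inverse
      have hinv : ρ τ * ρ τ⁻¹ = 1 := by rw [← map_mul, mul_inv_cancel, map_one]
      have hinv' : ρ τ⁻¹ * ρ τ = 1 := by rw [← map_mul, inv_mul_cancel, map_one]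
      have hν' : (ρ τ⁻¹ - 1) ^ d = 0 := by
        have e1 : ρ τ⁻¹ - 1 = -(ρ τ⁻¹) * (ρ τ - 1) := by
          rw [mul_sub, neg_mul, hinv', mul_one]
          abel
        have hc : Commute (-(ρ τ⁻¹)) (ρ τ - 1) := by
          refine Commute.sub_right ?_ (Commute.one_right _)
          refine Commute.neg_left ?_
          exact hinv'.trans hinv.symm
        rw [e1, hc.mul_pow, hν, mul_zero]
      have hlog : lgA d (ρ τ⁻¹ - 1) 1 = -lgA d (ρ τ - 1) 1 := by
        refine h4 k V (ρ τ - 1) (ρ τ⁻¹ - 1) d hd hν hν' ?_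
        rw [add_sub_cancel, add_sub_cancel, hinv]
      have hG : rep2 ρ τ - 1 = (ρ τ - 1).prodMap (ρ τ⁻¹ - 1).dualMap := by
        rw [rep2_apply, dualMap_sub, dualMap_one]
        rfl
      have hGd : (rep2 ρ τ - 1) ^ d = 0 := by
        rw [hG, prodMap_pow', ← dualMap_pow, hν, hν', dualMap_zero]
        exact LinearMap.prodMap_zero
      have hlg : lgA d (rep2 ρ τ - 1) 1 = lie (lgA d (ρ τ - 1) 1) := by
        have e1 : lgA d (rep2 ρ τ - 1) 1 = (lgA d (ρ τ - 1) 1).prodMap
            (lgA d (ρ τ⁻¹ - 1) 1).dualMap := by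
          unfold lgA
          rw [dualMap_sum]
          have e2 : ∀ j, (bp k j).coeff 1 • (rep2 ρ τ - 1) ^ j =
              ((bp k j).coeff 1 • (ρ τ - 1) ^ j).prodMap
                (((bp k j).coeff 1 • (ρ τ⁻¹ - 1) ^ j).dualMap) := by
            intro j
            rw [hG, prodMap_pow', ← dualMap_pow, dualMap_smul]
            rfl
          rw [Finset.sum_congr rfl fun j _ => e2 j]
          refine LinearMap.ext fun z => Prod.ext ?_ ?_
          · rw [LinearMap.sum_apply, Prod.fst_sum, LinearMap.prodMap_apply, LinearMap.sum_apply]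
            rfl
          · rw [LinearMap.sum_apply, Prod.snd_sum, LinearMap.prodMap_apply]
            change _ = (∑ i ∈ Finset.range d,
              LinearMap.dualMap ((bp k i).coeff 1 • (ρ τ⁻¹ - 1) ^ i)) z.2
            rw [LinearMap.sum_apply]
            rfl
        rw [e1, hlog, dualMap_neg]
        rfl
      change Kills (lie (lgA d (ρ τ - 1) 1)) φ
      rw [← hlg]
      refine kills_of_fixed φ (lgA d (rep2 ρ τ - 1)) (d := d) hd (lgA_zero (by omega) _) hM0 ?_
      intro t v
      have e0 : (1 + (rep2 ρ τ - 1) : End k (V × Dual k V)) = rep2 ρ τ := by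
        refine LinearMap.ext fun z => ?_
        change z + (rep2 ρ τ z - z) = _
        exact add_sub_cancel _ _
      have e1 : (rep2 ρ τ) ^ (M * t) = ∑ i ∈ Finset.range d,
          (((M * t : ℕ) : k) ^ i) • lgA d (rep2 ρ τ - 1) i :=
        (congrArg (fun A : End k (V × Dual k V) => A ^ (M * t)) e0).symm.trans
          (lgA_pow hGd (M * t))
      rw [← e1]
      have e2 := hφ (τ ^ (M * t)) (by
        rw [pow_mul]
        exact Subgroup.pow_mem _ hM _) v
      rw [← map_pow]
      exact e2

theorem lieL' : S_LIE := lieL log3 log4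

end Pool.Agent.Y41.RM
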