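import Mathlib
import Pool.Agent.H86.CMLib.Y114.RM.Stm4
import Pool.Agent.H86.CMLib.Y86.RM.Tor
import Pool.Agent.H86.CMLib.TH118.CR.Torus
import Pool.Agent.H86.CMLib.Y41.RM.Log

/-!
# Maximal Frobenius tori: the logarithm of the unipotent part (UNI)
-/

set_option autoImplicit false

namespace Pool.Agent.Y41.RM

open Module TensorProduct Pool.Agent.TH118.SG Pool.Agent.Y114.RM Pool.Agent.Y114.MU
  Pool.Agent.Y86.RM Pool.Agent.H204R3.SP

section gen

variable {K : Type} [Field K] [IsAlgClosed K] {E : Type} [AddCommGroup E] [Module K E]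
  [FiniteDimensional K E]

omit [IsAlgClosed K] [FiniteDimensional K E] in
theorem f_mem (f : End K E) {β : K} {x : E} (hx : x ∈ f.maxGenEigenspace β) :
    f x ∈ f.maxGenEigenspace β := by
  obtain ⟨n, hn⟩ := mem_gen.1 hx
  refine mem_gen.2 ⟨n, ?_⟩
  have hc : Commute ((f - algebraMap K (End K E) β) ^ n) f := by
    refine Commute.pow_left ?_ n
    exact (Commute.refl f).sub_left (Algebra.commutes β f)
  rw [← Module.End.mul_apply, hc.eq, Module.End.mul_apply, hn, map_zero]

omit [FiniteDimensional K E] in
/-- An operator preserving the generalized eigenspaces commutes with the operators that are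
scalar on them. -/
theorem op_comm [FiniteDimensional K E] (f : End K E) {t : K → K} {Y A : End K E}
    (hY : ∀ β, ∀ x ∈ f.maxGenEigenspace β, Y x = t β • x)
    (hA : ∀ β, ∀ x ∈ f.maxGenEigenspace β, A x ∈ f.maxGenEigenspace β) : A * Y = Y * A :=
  op_ext f fun β x hx => by
    rw [Module.End.mul_apply, Module.End.mul_apply, hY β x hx, map_smul, hY β _ (hA β x hx)]

omit [IsAlgClosed K] [FiniteDimensional K E] in
theorem op_mem (f : End K E) {t : K → K} {Y : End K E}
    (hY : ∀ β, ∀ x ∈ f.maxGenEigenspace β, Y x = t β • x) :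
    ∀ β, ∀ x ∈ f.maxGenEigenspace β, Y x ∈ f.maxGenEigenspace β := fun β x hx => by
  rw [hY β x hx]
  exact Submodule.smul_mem _ _ hx

omit [IsAlgClosed K] [FiniteDimensional K E] in
theorem gen_zero {f : End K E} (hf : Function.Injective f) {x : E}
    (hx : x ∈ f.maxGenEigenspace 0) : x = 0 := by
  obtain ⟨n, hn⟩ := mem_gen.1 hx
  rw [map_zero, sub_zero] at hn
  have h2 : ∀ n : ℕ, Function.Injective (f ^ n) := by
    intro n
    induction n with
    | zero => exact fun x y h => h
    | succ n ih =>
      intro x y hxy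
      rw [pow_succ, Module.End.mul_apply, Module.End.mul_apply] at hxy
      exact hf (ih hxy)
  exact h2 n (by rw [hn, map_zero])

/-- the inverse of the semisimple part -/
noncomputable def sp (f : End K E) : End K E := Classical.choose (exists_op f fun β => β⁻¹)

theorem sp_op (f : End K E) : ∀ β, ∀ x ∈ f.maxGenEigenspace β, sp f x = β⁻¹ • x :=
  Classical.choose_spec (exists_op f fun β => β⁻¹)

/-- the unipotent part -/
noncomputable def un (f : End K E) : End K E := f * sp f

theorem sp_comm (f : End K E) : f * sp f = sp f * f :=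
  op_comm f (sp_op f) fun _ _ hx => f_mem f hx

theorem un_sub (f : End K E) {β : K} {x : E} (hx : x ∈ f.maxGenEigenspace β) (hβ : β ≠ 0) :
    (un f - 1) x = β⁻¹ • (f - algebraMap K (End K E) β) x := by
  rw [LinearMap.sub_apply, LinearMap.sub_apply, Module.End.one_apply,
    Module.algebraMap_end_apply, un, Module.End.mul_apply, sp_op f β x hx, map_smul, smul_sub,
    smul_smul, inv_mul_cancel₀ hβ, one_smul]

omit [IsAlgClosed K] [FiniteDimensional K E] in
theorem sub_mem' (f : End K E) {β : K} {x : E} (hx : x ∈ f.maxGenEigenspace β) :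
    (f - algebraMap K (End K E) β) x ∈ f.maxGenEigenspace β := by
  rw [LinearMap.sub_apply, Module.algebraMap_end_apply]
  exact Submodule.sub_mem _ (f_mem f hx) (Submodule.smul_mem _ _ hx)

theorem un_pow (f : End K E) {β : K} (hβ : β ≠ 0) (n : ℕ) :
    ∀ x ∈ f.maxGenEigenspace β,
      ((un f - 1) ^ n) x = (β⁻¹) ^ n • ((f - algebraMap K (End K E) β) ^ n) x := by
  induction n with
  | zero => intro x _; rw [pow_zero, pow_zero, pow_zero, one_smul]
  | succ n ih =>
    intro x hx
    rw [pow_succ, Module.End.mul_apply, un_sub f hx hβ, map_smul, ih _ (sub_mem' f hx), smul_smul,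
      pow_succ (f - algebraMap K (End K E) β), Module.End.mul_apply, pow_succ']

theorem un_nil {f : End K E} (hf : Function.Injective f) : IsNilpotent (un f - 1) := by
  rw [Module.End.isNilpotent_iff_of_finite]
  intro x
  have hx : x ∈ ⨆ β, f.maxGenEigenspace β := by
    rw [Module.End.iSup_maxGenEigenspace_eq_top f]
    exact Submodule.mem_top
  induction hx using Submodule.iSup_induction' with
  | mem β x hx =>
    by_cases hβ : β = 0
    · rw [hβ] at hx
      exact ⟨0, by rw [gen_zero hf hx, map_zero]⟩
    · obtain ⟨n, hn⟩ := mem_gen.1 hx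
      exact ⟨n, by rw [un_pow f hβ n x hx, hn, smul_zero]⟩
  | zero => exact ⟨0, map_zero _⟩
  | add x y _ _ hx hy =>
    obtain ⟨a, ha⟩ := hx
    obtain ⟨b, hb⟩ := hy
    refine ⟨a + b, ?_⟩
    rw [map_add, pow_add]
    nth_rewrite 1 [← pow_add, add_comm a b, pow_add]
    rw [Module.End.mul_apply, Module.End.mul_apply, ha, hb, map_zero, map_zero, add_zero]

/-- operators attached to the same function of the eigenvalues are natural -/
theorem op_nat' {E₂ : Type} [AddCommGroup E₂] [Module K E₂] [FiniteDimensional K E₂]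
    {f₁ Y₁ : End K E} {f₂ Y₂ : End K E₂} {A : E →ₗ[K] E₂}
    (h : ∀ x, A (f₁ x) = f₂ (A x)) {t : K → K}
    (h1 : ∀ β, ∀ x ∈ f₁.maxGenEigenspace β, Y₁ x = t β • x)
    (h2 : ∀ β, ∀ x ∈ f₂.maxGenEigenspace β, Y₂ x = t β • x) (x : E) : A (Y₁ x) = Y₂ (A x) := by
  have hx : x ∈ ⨆ β, f₁.maxGenEigenspace β := by
    rw [Module.End.iSup_maxGenEigenspace_eq_top f₁]
    exact Submodule.mem_top
  induction hx using Submodule.iSup_induction' with
  | mem β x hx => rw [h1 β x hx, map_smul, h2 β _ (map_gen h hx)]
  | zero => simp only [map_zero]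
  | add x y _ _ hx hy => rw [map_add, map_add, map_add, map_add, hx, hy]

theorem un_nat {E₂ : Type} [AddCommGroup E₂] [Module K E₂] [FiniteDimensional K E₂]
    {f₁ : End K E} {f₂ : End K E₂} {A : E →ₗ[K] E₂} (h : ∀ x, A (f₁ x) = f₂ (A x)) (x : E) :
    A (un f₁ x) = un f₂ (A x) := by
  rw [un, un, Module.End.mul_apply, Module.End.mul_apply, h, op_nat' h (sp_op f₁) (sp_op f₂)]

theorem lg_nat [CharZero K] {E₂ : Type} [AddCommGroup E₂] [Module K E₂] [FiniteDimensional K E₂]
    {f₁ : End K E} {f₂ : End K E₂} {A : E →ₗ[K] E₂} (h : ∀ x, A (f₁ x) = f₂ (A x)) (d i : ℕ)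
    (x : E) : A (lgA d (un f₁ - 1) i x) = lgA d (un f₂ - 1) i (A x) := by
  have hpow : ∀ (j : ℕ) (x : E), A (((un f₁ - 1) ^ j) x) = ((un f₂ - 1) ^ j) (A x) := by
    intro j
    induction j with
    | zero => intro x; rfl
    | succ j ih =>
      intro x
      rw [pow_succ, pow_succ, Module.End.mul_apply, Module.End.mul_apply, ih]
      congr 1
      rw [LinearMap.sub_apply, LinearMap.sub_apply, map_sub, un_nat h, Module.End.one_apply,
        Module.End.one_apply]
  unfold lgA
  rw [LinearMap.sum_apply, LinearMap.sum_apply, map_sum]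
  refine Finset.sum_congr rfl fun j _ => ?_
  rw [LinearMap.smul_apply, LinearMap.smul_apply, map_smul, hpow]

/-- the powers of `sp f` -/
theorem sp_pow (f : End K E) (M : ℕ) :
    ∀ c, ∀ x ∈ (f ^ M).maxGenEigenspace c, (sp f ^ M) x = c⁻¹ • x := by
  obtain ⟨Y', hY'⟩ := exists_op (f ^ M) fun c => c⁻¹
  have h0 : ∀ (n : ℕ) (β : K), ∀ x ∈ f.maxGenEigenspace β, (sp f ^ n) x = (β⁻¹) ^ n • x := by
    intro n
    induction n with
    | zero => intro β x _; rw [pow_zero, pow_zero, one_smul, Module.End.one_apply]
    | succ n ih =>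
      intro β x hx
      rw [pow_succ, Module.End.mul_apply, sp_op f β x hx, map_smul, ih β x hx, smul_smul,
        pow_succ']
  have h1 : sp f ^ M = Y' := by
    refine op_ext f fun β x hx => ?_
    rw [h0 M β x hx, hY' _ x (gen_pow hx M), inv_pow]
  rw [h1]
  exact hY'

theorem un_pow_eq (f : End K E) (M : ℕ) : un f ^ M = f ^ M * sp f ^ M :=
  (show Commute f (sp f) from sp_comm f).mul_pow M

/-- stable subspaces -/
theorem un_stable {f : End K E} (W : Submodule K E) (M : ℕ)
    (hW : ∀ x ∈ W, (f ^ M) x ∈ W) : ∀ x ∈ W, (un f ^ M) x ∈ W := by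
  intro x hx
  have h0 : ∀ x ∈ W, (sp f ^ M) x ∈ W := by
    intro x hx
    have h1 : W = ⨆ c, W ⊓ (f ^ M).maxGenEigenspace c :=
      Submodule.eq_iSup_inf_genEigenspace ⊤ hW (Module.End.iSup_maxGenEigenspace_eq_top _)
    rw [h1] at hx
    induction hx using Submodule.iSup_induction' with
    | mem c x hx =>
      rw [sp_pow f M c x hx.2]
      exact W.smul_mem _ hx.1
    | zero =>
      rw [map_zero]
      exact W.zero_mem
    | add x y _ _ hx hy =>
      rw [map_add]
      exact W.add_mem hx hy
  rw [un_pow_eq, Module.End.mul_apply]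
  exact hW _ (h0 x hx)

theorem lg_stable [CharZero K] {f : End K E} {d : ℕ} (hd : 2 ≤ d) (hν : (un f - 1) ^ d = 0)
    (W : Submodule K E) {M : ℕ} (hM : 0 < M) (hW : ∀ x ∈ W, (f ^ M) x ∈ W) :
    ∀ x ∈ W, lgA d (un f - 1) 1 x ∈ W :=
  log3 K E (un f - 1) d M hd hν hM W fun x hx => by
    rw [add_sub_cancel]
    exact un_stable W M hW x hx

/-- The vectors killed by all projections to the generalized eigenspaces are zero. -/
theorem eq_zero_of_proj (f : End K E) (P : K → End K E)
    (hP : ∀ c β, ∀ x ∈ f.maxGenEigenspace β, P c x = (Set.indicator {c} 1 β : K) • x) {y : E}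
    (hy : ∀ c, P c y = 0) : y = 0 := by
  classical
  have hyt : y ∈ ⨆ β, f.maxGenEigenspace β := by
    rw [Module.End.iSup_maxGenEigenspace_eq_top f]
    exact Submodule.mem_top
  obtain ⟨h, hh, hsum⟩ := (Submodule.mem_iSup_iff_exists_finsupp _ _).1 hyt
  have h1 : ∀ c ∈ h.support, h c = 0 := by
    intro c hc
    have h2 := hy c
    rw [← hsum, Finsupp.sum, map_sum, Finset.sum_eq_single c] at h2
    · rw [hP c c _ (hh c), Set.indicator_of_mem (Set.mem_singleton c), Pi.one_apply,
        one_smul] at h2
      exact h2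
    · intro b _ hb
      rw [hP c b _ (hh b), Set.indicator_of_notMem (by rwa [Set.mem_singleton_iff]), zero_smul]
    · intro hc'
      exact absurd hc hc'
  rw [← hsum]
  exact Finset.sum_eq_zero h1

open scoped Classical in
/-- The operators commuting with all `θ`-operators and the unipotent part commute with a power
of `f`. -/
theorem exists_M [CharZero K] {f : End K E} (hf : Function.Injective f) :
    ∃ M : ℕ, 0 < M ∧ ∀ Y : End K E,
      (∀ (θ : Additive Kˣ →+ K) (Z : End K E), IsOp θ f Z → Z * Y = Y * Z) →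
      Y * un f = un f * Y → f ^ M * Y = Y * f ^ M := by
  have hfin : {β | f.maxGenEigenspace β ≠ ⊥}.Finite := by
    refine (Module.End.finite_hasEigenvalue f).subset ?_
    intro β hβ
    by_contra h
    have h1 : f.HasUnifEigenvalue β ⊤ := hβ
    exact h (h1.lt one_pos)
  let S : Finset K := hfin.toFinset
  let o : K → K → ℕ := fun β c => if h : ∃ m, 0 < m ∧ β ^ m = c ^ m then h.choose else 1
  have ho : ∀ β c, 0 < o β c := by
    intro β c
    by_cases h : ∃ m, 0 < m ∧ β ^ m = c ^ m
    · simp only [o, dif_pos h]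
      exact h.choose_spec.1
    · simp only [o, dif_neg h]
      exact one_pos
  let M : ℕ := ∏ β ∈ S, ∏ c ∈ S, o β c
  have hM : 0 < M := Finset.prod_pos fun β _ => Finset.prod_pos fun c _ => ho β c
  have hMe : ∀ β ∈ S, ∀ c ∈ S, (∃ m, 0 < m ∧ β ^ m = c ^ m) → β ^ M = c ^ M := by
    intro β hβ c hc h
    have h1 : β ^ o β c = c ^ o β c := by
      simp only [o, dif_pos h]
      exact h.choose_spec.2
    have h2 : o β c ∣ M := (Finset.dvd_prod_of_mem (fun c => o β c) hc).trans
      (Finset.dvd_prod_of_mem (fun β => ∏ c ∈ S, o β c) hβ)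
    obtain ⟨e, he⟩ := h2
    rw [he, pow_mul, pow_mul, h1]
  refine ⟨M, hM, fun Y hY hYu => ?_⟩
  obtain ⟨s, hs⟩ := exists_op f fun β => β
  choose P hP using fun c : K => exists_op f fun β => (Set.indicator {c} 1 β : K)
  have hPs : ∀ c, P c * s = s * P c := fun c => op_comm f hs (op_mem f (hP c))
  have hPmem : ∀ c y, P c y ∈ f.maxGenEigenspace c := by
    intro c y
    have hy : y ∈ ⨆ β, f.maxGenEigenspace β := by
      rw [Module.End.iSup_maxGenEigenspace_eq_top f]
      exact Submodule.mem_top
    induction hy using Submodule.iSup_induction' with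
    | mem β y hy =>
      rw [hP c β y hy]
      by_cases h : β = c
      · subst h
        exact Submodule.smul_mem _ _ hy
      · rw [Set.indicator_of_notMem (by rwa [Set.mem_singleton_iff]), zero_smul]
        exact Submodule.zero_mem _
    | zero => rw [map_zero]; exact Submodule.zero_mem _
    | add x y _ _ hx hy => rw [map_add]; exact Submodule.add_mem _ hx hy
  have hspow : ∀ (n : ℕ) (β : K), ∀ x ∈ f.maxGenEigenspace β, (s ^ n) x = β ^ n • x := by
    intro n
    induction n with
    | zero => intro β x _; rw [pow_zero, pow_zero, one_smul, Module.End.one_apply]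
    | succ n ih =>
      intro β x hx
      rw [pow_succ, Module.End.mul_apply, hs β x hx, map_smul, ih β x hx, smul_smul, pow_succ']
  -- `Y` commutes with `s ^ M`
  have key : s ^ M * Y = Y * s ^ M := by
    refine op_ext f fun β x hx => ?_
    rw [Module.End.mul_apply, Module.End.mul_apply, hspow M β x hx, map_smul, ← sub_eq_zero]
    refine eq_zero_of_proj f P hP fun c => ?_
    have hPc : P c ((s ^ M) (Y x)) = c ^ M • P c (Y x) := by
      have h1 : P c * s ^ M = s ^ M * P c := ((show Commute (P c) s from hPs c).pow_right M).eq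
      rw [← Module.End.mul_apply, h1, Module.End.mul_apply, hspow M c _ (hPmem c _)]
    rw [map_sub, map_smul, hPc, ← sub_smul]
    by_cases h0 : P c (Y x) = 0
    · rw [h0, smul_zero]
    have hcS : c ∈ S := (Set.Finite.mem_toFinset hfin).2 fun h => h0 (by
      have h1 := hPmem c (Y x)
      rw [h] at h1
      exact (Submodule.mem_bot K).1 h1)
    have hx0 : x ≠ 0 := fun h => h0 (by rw [h, map_zero, map_zero])
    have hβS : β ∈ S := (Set.Finite.mem_toFinset hfin).2 fun h => hx0 (by
      rw [h] at hx
      exact (Submodule.mem_bot K).1 hx)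
    have hc0 : c ≠ 0 := fun h => h0 (by
      have h1 := hPmem c (Y x)
      rw [h] at h1
      rw [h]
      exact gen_zero hf h1)
    have hβ0 : β ≠ 0 := fun h => hx0 (by
      rw [h] at hx
      exact gen_zero hf hx)
    have hex : ∃ m, 0 < m ∧ β ^ m = c ^ m := by
      by_contra hcon
      push Not at hcon
      obtain ⟨a, ha⟩ := Pool.Agent.TH118.CR.exists_add (Units.mk0 β hβ0 * (Units.mk0 c hc0)⁻¹) (by
        intro m hm h
        apply hcon m hm
        rw [mul_pow, inv_pow, mul_inv_eq_one] at h
        have h1 := congrArg (fun x : Kˣ => (x : K)) h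
        simpa using h1)
      obtain ⟨Z, hZ⟩ := exists_op f (ext0 a)
      have h1 := LinearMap.congr_fun (hY a Z hZ) x
      rw [Module.End.mul_apply, Module.End.mul_apply, hZ β x hx, map_smul] at h1
      have h2 := congrArg (P c) h1
      have h3 : P c * Z = Z * P c := op_comm f hZ (op_mem f (hP c))
      rw [← Module.End.mul_apply, h3, Module.End.mul_apply, hZ c _ (hPmem c _), map_smul,
        ← sub_eq_zero, ← sub_smul] at h2
      have h4 := (smul_eq_zero.1 h2).resolve_right h0
      apply ha
      rw [ofMul_mul, ofMul_inv, map_add, map_neg, ← ext0_ne a hβ0, ← ext0_ne a hc0]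
      linear_combination -h4
    rw [hMe β hβS c hcS hex, sub_self, zero_smul]
  -- conclusion
  have hsf : s * un f = f := by
    refine op_ext f fun β x hx => ?_
    rw [un, sp_comm, Module.End.mul_apply, Module.End.mul_apply, sp_op f β _ (f_mem f hx), map_smul,
      hs β _ (f_mem f hx), smul_smul]
    by_cases hβ : β = 0
    · rw [hβ] at hx
      rw [gen_zero hf hx, map_zero, smul_zero]
    · rw [inv_mul_cancel₀ hβ, one_smul]
  have hsu : Commute s (un f) := by
    have h1 : f * s = s * f := op_comm f hs fun _ _ hx => f_mem f hx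
    have h2 : sp f * s = s * sp f := op_comm f hs (op_mem f (sp_op f))
    rw [un]
    exact (show Commute s f from h1.symm).mul_right (show Commute s (sp f) from h2.symm)
  have hfM : f ^ M = s ^ M * un f ^ M := by
    rw [← hsu.mul_pow, hsf]
  have hYu' : Commute Y (un f ^ M) := (show Commute Y (un f) from hYu).pow_right M
  rw [hfM, mul_assoc, ← hYu'.eq, ← mul_assoc, key, mul_assoc]

theorem lg_comm [CharZero K] {f Z : End K E} {t : K → K}
    (hZ : ∀ β, ∀ x ∈ f.maxGenEigenspace β, Z x = t β • x) (d i : ℕ) :
    Z * lgA d (un f - 1) i = lgA d (un f - 1) i * Z := by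
  have h1 : Commute Z f := (op_comm f hZ fun _ _ hx => f_mem _ hx).symm
  have h2 : Commute Z (sp f) := (op_comm f hZ (op_mem _ (sp_op f))).symm
  have h3 : Commute Z (un f - 1) := (h1.mul_right h2).sub_right (Commute.one_right Z)
  unfold lgA
  exact Commute.sum_right _ _ _ fun j _ => (h3.pow_right j).smul_right _

theorem comm_un [CharZero K] {f Y : End K E} {d : ℕ} (hd : 2 ≤ d) (hν : (un f - 1) ^ d = 0)
    (h : lgA d (un f - 1) 1 * Y = Y * lgA d (un f - 1) 1) : Y * un f = un f * Y := by
  have h1 := (log1 K E (un f - 1) d hd hν).2 Y h.symm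
  have h2 : Commute Y (un f - 1) := h1
  have h3 := h2.add_right (Commute.one_right Y)
  rw [sub_add_cancel] at h3
  exact h3

/-- invariance under the semisimple part -/
theorem inv_sp {m : ℕ} {f : End K E} {Φ : MultilinearMap K (fun _ : Fin m => E) K} {M : ℕ}
    (hh : ∀ v, Φ (fun j => (f ^ M) (v j)) = Φ v) : ∀ v, Φ (fun j => (sp f ^ M) (v j)) = Φ v := by
  classical
  have hS : Φ.compLinearMap (fun _ => (sp f ^ M)) = Φ := by
    let b : ∀ β : K, Basis (Fin (finrank K (f.maxGenEigenspace β))) K (f.maxGenEigenspace β) :=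
      fun β => Module.finBasis K _
    let B := (gen_internal f).collectedBasis b
    have hB : ∀ i, B i ∈ f.maxGenEigenspace i.1 := (gen_internal f).collectedBasis_mem b
    refine Module.Basis.ext_multilinear (fun _ => B) fun r => ?_
    rw [MultilinearMap.compLinearMap_apply]
    have h1 : ∀ j, (sp f ^ M) (B (r j)) = ((r j).1 ^ M)⁻¹ • B (r j) := fun j =>
      sp_pow f M _ _ (gen_pow (hB (r j)) M)
    rw [funext h1, MultilinearMap.map_smul_univ]
    have h2 : Φ (fun j => B (r j)) ∈ (1 : End K K).maxGenEigenspace (∏ j, (r j).1 ^ M) :=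
      multi_gen (g' := (1 : End K K)) hh (fun j => (r j).1 ^ M) fun j => gen_pow (hB (r j)) M
    by_cases h0 : Φ (fun j => B (r j)) = 0
    · rw [h0, smul_zero]
    · have h3 : (∏ j, (r j).1 ^ M) = 1 := by
        obtain ⟨n, hn⟩ := mem_gen.1 h2
        by_contra hne
        have h4 : ∀ (n : ℕ) (x : K), ((1 - algebraMap K (End K K) (∏ j, (r j).1 ^ M)) ^ n) x =
            (1 - (∏ j, (r j).1 ^ M)) ^ n * x := by
          intro n
          induction n with
          | zero => intro x; rw [pow_zero, pow_zero, one_mul, Module.End.one_apply]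
          | succ n ih =>
            intro x
            rw [pow_succ', Module.End.mul_apply, ih, LinearMap.sub_apply,
              Module.algebraMap_end_apply, Module.End.one_apply, smul_eq_mul]
            ring
        rw [h4] at hn
        rcases mul_eq_zero.1 hn with h | h
        · exact absurd h (pow_ne_zero n (sub_ne_zero.2 (Ne.symm hne)))
        · exact h0 h
      rw [Finset.prod_inv_distrib, h3, inv_one, one_smul]
  intro v
  exact congrArg (fun F : MultilinearMap K (fun _ : Fin m => E) K => F v) hS

/-- the logarithm of the unipotent part kills the forms invariant under a power -/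
theorem kills_un [CharZero K] {m : ℕ} {f : End K E} {Φ : MultilinearMap K (fun _ : Fin m => E) K}
    {d : ℕ} (hd : 2 ≤ d) (hν : (un f - 1) ^ d = 0) {M : ℕ} (hM : 0 < M)
    (hh : ∀ v, Φ (fun j => (f ^ M) (v j)) = Φ v) : Kills (lgA d (un f - 1) 1) Φ := by
  have hS := inv_sp hh
  have hU : ∀ v, Φ (fun l => (un f ^ M) (v l)) = Φ v := by
    intro v
    have h1 : (fun l => (un f ^ M) (v l)) = fun l => (f ^ M) ((sp f ^ M) (v l)) := by
      funext l
      rw [un_pow_eq, Module.End.mul_apply]
    rw [h1, hh fun l => (sp f ^ M) (v l), hS]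
  have hU' : ∀ (t : ℕ) (v : Fin m → E), Φ (fun l => (un f ^ (M * t)) (v l)) = Φ v := by
    intro t
    induction t with
    | zero => intro v; rw [mul_zero, pow_zero]; rfl
    | succ t ih =>
      intro v
      have h1 : (fun l => (un f ^ (M * (t + 1))) (v l)) =
          fun l => (un f ^ (M * t)) ((un f ^ M) (v l)) := by
        funext l
        rw [Nat.mul_succ, pow_add, Module.End.mul_apply]
      rw [h1, ih fun l => (un f ^ M) (v l), hU]
  refine kills_of_fixed Φ (lgA d (un f - 1)) hd (lgA_zero (by omega) _) hM ?_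
  intro t v
  have e1 := lgA_pow hν (M * t)
  rw [add_sub_cancel] at e1
  rw [← e1]
  exact hU' t v

end gen

section main

variable {k : Type} [Field k] [CharZero k] {C : Type} [Field C] [CharZero C] [IsAlgClosed C]
  [Algebra k C] {U : Type} [AddCommGroup U] [Module k U] [FiniteDimensional k U]

omit [CharZero k] in
/-- the logarithm of the unipotent part kills invariant forms -/
theorem claimN (G₀ : End k U) (hG : Function.Injective (G₀.baseChange C : End C (C ⊗[k] U)))
    {d : ℕ} (hd : 2 ≤ d) (hν : (un (G₀.baseChange C : End C (C ⊗[k] U)) - 1) ^ d = 0) {M : ℕ}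
    (hM : 0 < M) (π : C →ₗ[k] k) {m : ℕ} (φ : MultilinearMap k (fun _ : Fin m => U) k)
    (hφ : ∀ v, φ (fun l => (G₀ ^ M) (v l)) = φ v) (v : Fin m → U) :
    ∑ l, φ (Function.update v l
      (pM π (lgA d (un (G₀.baseChange C : End C (C ⊗[k] U)) - 1) 1) (v l))) = 0 := by
  classical
  let b := Module.finBasis k U
  let Φ := Pool.Agent.H204R3.SP.bcm (Ω := C) b φ
  set f : End C (C ⊗[k] U) := G₀.baseChange C with hfdef
  have hinv : Φ.compLinearMap (fun _ => (f ^ M)) = Φ := by
    refine Basis.ext_multilinear (fun _ => b.baseChange C) fun J => ?_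
    rw [MultilinearMap.compLinearMap_apply]
    have h1 : ∀ l, (f ^ M) (b.baseChange C (J l)) =
        (1 : C) ⊗ₜ[k] ((G₀ ^ M) (b (J l))) := by
      intro l
      rw [Basis.baseChange_apply, bc_pow]
    simp only [h1]
    have h2 : (fun l => b.baseChange C (J l)) = fun l => (1 : C) ⊗ₜ[k] b (J l) := by
      funext l
      rw [Basis.baseChange_apply]
    rw [h2]
    change Pool.Agent.H204R3.SP.bcm (Ω := C) b φ _ = Pool.Agent.H204R3.SP.bcm (Ω := C) b φ _
    rw [Pool.Agent.H204R3.SP.bcm_one, Pool.Agent.H204R3.SP.bcm_one, hφ]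
  have hh : ∀ v, Φ (fun j => (f ^ M) (v j)) = Φ v := fun v =>
    congrArg (fun F : MultilinearMap C (fun _ : Fin m => C ⊗[k] U) C => F v) hinv
  have key : Kills (lgA d (un f - 1) 1) Φ := kills_un hd hν hM hh
  have key1 := key (fun l => (1 : C) ⊗ₜ[k] v l)
  have key2 := congrArg π key1
  rw [map_zero, map_sum] at key2
  rw [← key2]
  refine Finset.sum_congr rfl fun l _ => ?_
  rw [pM_apply, ← pi_bcm b φ π v l]

end main

theorem bcPow {k : Type} [Field k] {C : Type} [Field C] [Algebra k C] {V : Type} [AddCommGroup V]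
    [Module k V] (g : End k V) (M : ℕ) :
    ((g ^ M).baseChange C : End C (C ⊗[k] V)) = (g.baseChange C : End C (C ⊗[k] V)) ^ M := by
  refine LinearMap.ext fun z => ?_
  induction z using TensorProduct.induction_on with
  | zero => rw [map_zero, map_zero]
  | tmul c v =>
    have h1 : (c ⊗ₜ[k] v : C ⊗[k] V) = c • ((1 : C) ⊗ₜ[k] v) := by
      rw [TensorProduct.smul_tmul', smul_eq_mul, mul_one]
    rw [h1, map_smul, map_smul, bc_pow, LinearMap.baseChange_tmul]
  | add x y hx hy => rw [map_add, map_add, hx, hy]

/-- UNI -/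
theorem uni : S_UNI := by
  intro k _ _ C _ _ _ _ V _ _ _ g g' hgg' hg'g
  classical
  have hG₀ : grp g' g * grp g g' = 1 := by
    apply LinearMap.ext
    rintro ⟨x, ξ⟩
    rw [Module.End.mul_apply]
    unfold grp
    refine Prod.ext ?_ ?_
    · change g' (g x) = x
      rw [← Module.End.mul_apply, hg'g, Module.End.one_apply]
    · change g.dualMap (g'.dualMap ξ) = ξ
      apply LinearMap.ext
      intro y
      change ξ (g' (g y)) = ξ y
      rw [← Module.End.mul_apply, hg'g, Module.End.one_apply]
  have hD₀ : (g.dualMap : End k (Dual k V)) * g'.dualMap = 1 := by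
    apply LinearMap.ext
    intro ξ
    apply LinearMap.ext
    intro y
    change ξ (g' (g y)) = ξ y
    rw [← Module.End.mul_apply, hg'g, Module.End.one_apply]
  have hg : Function.Injective (g.baseChange C : End C (C ⊗[k] V)) := bc_inj hg'g
  have hG : Function.Injective ((grp g g').baseChange C : End C (C ⊗[k] (V × Dual k V))) :=
    bc_inj hG₀
  have hD : Function.Injective ((g'.dualMap : End k (Dual k V)).baseChange C :
      End C (C ⊗[k] (Dual k V))) := bc_inj hD₀
  obtain ⟨d₁, h₁⟩ := un_nil hg
  obtain ⟨d₂, h₂⟩ := un_nil hG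
  obtain ⟨d₃, h₃⟩ := un_nil hD
  set d := d₁ + d₂ + d₃ + 2 with hd
  have hν₁ : (un (g.baseChange C : End C (C ⊗[k] V)) - 1) ^ d = 0 :=
    pow_eq_zero_of_le (by omega) h₁
  have hν₂ : (un ((grp g g').baseChange C : End C (C ⊗[k] (V × Dual k V))) - 1) ^ d = 0 :=
    pow_eq_zero_of_le (by omega) h₂
  have hd2 : 2 ≤ d := by omega
  obtain ⟨M, hM, hMY⟩ := exists_M hg
  set N : End C (C ⊗[k] V) := lgA d (un (g.baseChange C : End C (C ⊗[k] V)) - 1) 1 with hN
  refine ⟨N, M, ?_, hM, ?_, ?_, ?_⟩
  · rw [hN, hd]
    exact lgA_one_nil _ ⟨d₁, h₁⟩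
  · intro θ Z hZ
    exact lg_comm hZ d 1
  · intro M' hM' π
    refine ⟨?_, ?_⟩
    · intro W hW x hx
      have h1 := lg_stable hd2 hν₁ (W.baseChange C) hM' (by
        intro z hz
        rw [Submodule.baseChange_eq_span] at hz ⊢
        induction hz using Submodule.span_induction with
        | mem z hz =>
          obtain ⟨w, hw, rfl⟩ := hz
          refine Submodule.subset_span ⟨(g ^ M') w, hW w hw, ?_⟩
          rw [TensorProduct.mk_apply, TensorProduct.mk_apply, bc_pow]
        | zero => rw [map_zero]; exact Submodule.zero_mem _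
        | add a b _ _ ha hb => rw [map_add]; exact Submodule.add_mem _ ha hb
        | smul c a _ ha => rw [map_smul]; exact Submodule.smul_mem _ _ ha)
      have h2 : ∀ z ∈ W.baseChange C, ∀ c : C, pv π (c • z) ∈ W := by
        intro z hz
        rw [Submodule.baseChange_eq_span] at hz
        induction hz using Submodule.span_induction with
        | mem z hz =>
          obtain ⟨w, hw, rfl⟩ := hz
          intro c
          rw [TensorProduct.mk_apply, TensorProduct.smul_tmul', pv_tmul]
          exact Submodule.smul_mem _ _ hw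
        | zero => intro c; rw [smul_zero, map_zero]; exact Submodule.zero_mem _
        | add a b _ _ ha hb =>
          intro c; rw [smul_add, map_add]; exact Submodule.add_mem _ (ha c) (hb c)
        | smul c' a _ ha => intro c; rw [smul_smul]; exact ha _
      have h3 : (1 : C) ⊗ₜ[k] x ∈ W.baseChange C := by
        rw [Submodule.baseChange_eq_span]
        exact Submodule.subset_span ⟨x, hx, rfl⟩
      have h4 := h2 _ (h1 _ h3) 1
      rw [one_smul] at h4
      exact h4
    · -- the tensors
      set Z : End C (C ⊗[k] (V × Dual k V)) :=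
        lgA d (un ((grp g g').baseChange C : End C (C ⊗[k] (V × Dual k V))) - 1) 1 with hZ
      set Y' : End C (C ⊗[k] (Dual k V)) := lgA d (un ((g'.dualMap : End k (Dual k V)).baseChange C :
        End C (C ⊗[k] (Dual k V))) - 1) 1 with hY'
      have hinl : ∀ x, (LinearMap.inl k V (Dual k V)).baseChange C (g.baseChange C x) =
          (grp g g').baseChange C ((LinearMap.inl k V (Dual k V)).baseChange C x) := by
        intro x
        induction x using TensorProduct.induction_on with
        | zero => simp only [map_zero]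
        | tmul c v =>
          simp only [LinearMap.baseChange_tmul]
          congr 1
        | add x y hx hy => simp only [map_add, hx, hy]
      have hinr : ∀ x, (LinearMap.inr k V (Dual k V)).baseChange C ((g'.dualMap).baseChange C x) =
          (grp g g').baseChange C ((LinearMap.inr k V (Dual k V)).baseChange C x) := by
        intro x
        induction x using TensorProduct.induction_on with
        | zero => simp only [map_zero]
        | tmul c v =>
          simp only [LinearMap.baseChange_tmul]
          congr 1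
          unfold grp
          refine Prod.ext ?_ rfl
          change (0 : V) = g 0
          rw [map_zero]
        | add x y hx hy => simp only [map_add, hx, hy]
      have e1 : ∀ x : V, pM π Z (x, 0) = (pM π N x, 0) := by
        intro x
        have h1 := lg_nat hinl d 1 ((1 : C) ⊗ₜ[k] x)
        have h2 := congrArg (pv π) h1
        rw [pv_nat, LinearMap.baseChange_tmul] at h2
        exact h2.symm
      have e2 : ∀ ξ : Dual k V, pM π Z (0, ξ) = (0, pM π Y' ξ) := by
        intro ξ
        have h1 := lg_nat hinr d 1 ((1 : C) ⊗ₜ[k] ξ)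
        have h2 := congrArg (pv π) h1
        rw [pv_nat, LinearMap.baseChange_tmul] at h2
        exact h2.symm
      have hev : ∀ v : Fin 2 → V × Dual k V,
          ev2 k V (fun l => ((grp g g') ^ M') (v l)) = ev2 k V v := by
        intro v
        rw [ev2_apply, ev2_apply, grp_pow]
        change (v 1).2 ((g' ^ M') ((g ^ M') (v 0).1)) = (v 1).2 (v 0).1
        have h3 : g' ^ M' * g ^ M' = 1 := by
          have hc : Commute g' g := by
            rw [Commute, SemiconjBy, hgg', hg'g]
          rw [← hc.mul_pow, hg'g, one_pow]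
        rw [← Module.End.mul_apply, h3, Module.End.one_apply]
      have e3 : ∀ (x : V) (ξ : Dual k V), (pM π Y' ξ) x = - ξ (pM π N x) := by
        intro x ξ
        have h1 := claimN (grp g g') hG hd2 hν₂ hM' π (ev2 k V) hev ![(x, 0), (0, ξ)]
        rw [Fin.sum_univ_two, ← hZ] at h1
        simp only [ev2_apply] at h1
        have h2 : (Function.update ![((x, 0) : V × Dual k V), (0, ξ)] 0
            (pM π Z (![((x, 0) : V × Dual k V), (0, ξ)] 0))) 1 = (0, ξ) := by
          rw [Function.update_of_ne (by decide)]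
          rfl
        have h3 : (Function.update ![((x, 0) : V × Dual k V), (0, ξ)] 0
            (pM π Z (![((x, 0) : V × Dual k V), (0, ξ)] 0))) 0 = (pM π N x, 0) := by
          rw [Function.update_self]
          exact e1 x
        have h4 : (Function.update ![((x, 0) : V × Dual k V), (0, ξ)] 1
            (pM π Z (![((x, 0) : V × Dual k V), (0, ξ)] 1))) 1 = (0, pM π Y' ξ) := by
          rw [Function.update_self]
          exact e2 ξ
        have h5 : (Function.update ![((x, 0) : V × Dual k V), (0, ξ)] 1
            (pM π Z (![((x, 0) : V × Dual k V), (0, ξ)] 1))) 0 = (x, 0) := by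
          rw [Function.update_of_ne (by decide)]
          rfl
        rw [h2, h3, h4, h5] at h1
        exact eq_neg_of_add_eq_zero_right h1
      have e4 : pM π Z = lie (pM π N) := by
        apply LinearMap.ext
        rintro ⟨x, ξ⟩
        have h1 : ((x, ξ) : V × Dual k V) = (x, 0) + (0, ξ) := by simp
        rw [h1, map_add, e1, e2, ← h1]
        unfold lie
        refine Prod.ext ?_ ?_
        · change pM π N x + 0 = pM π N x
          rw [add_zero]
        · apply LinearMap.ext
          intro y
          change ((0 : Dual k V) + pM π Y' ξ) y = (-(pM π N).dualMap) ξ y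
          rw [zero_add, e3]
          rfl
      intro m φ hφ v
      rw [← e4]
      refine claimN (grp g g') hG hd2 hν₂ hM' π φ (fun v => ?_) v
      rw [grp_pow]
      exact hφ v
  · intro Y hYN hYZ
    rw [bcPow]
    exact hMY Y hYZ (comm_un hd2 hν₁ hYN)

end Pool.Agent.Y41.RM
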